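import Mathlib

namespace Pool.Agent.Results.MP_80b08f_co.Yes

/-- Permutations of size `n`. -/
abbrev P (n : ℕ) := Equiv.Perm (Fin n)

/-- Sets of permutations. -/
abbrev Cl := ∀ n, Set (P n)

/-- `f` is an embedding of `α` into `β`: it preserves the position order and the value order. -/
def Emb {k n : ℕ} (α : P k) (β : P n) (f : Fin k → Fin n) : Prop :=
  StrictMono f ∧ ∀ i j, α i < α j ↔ β (f i) < β (f j)

def IsClass (C : Cl) : Prop :=
  ∀ n k (β : P n) (α : P k) f, β ∈ C n → Emb α β f → α ∈ C k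

def Amalg (C : Cl) {k : ℕ} (α : P k) : Prop :=
  ∀ n m (β : P n) (γ : P m) f g, β ∈ C n → γ ∈ C m → Emb α β f → Emb α γ g →
    ∃ (l : ℕ) (δ : P l) (f' : Fin n → Fin l) (g' : Fin m → Fin l),
      δ ∈ C l ∧ Emb β δ f' ∧ Emb γ δ g' ∧ f' ∘ f = g' ∘ g

def OneAmalg (C : Cl) : Prop := ∀ k ≤ 1, ∀ α ∈ C k, Amalg C α

/-- `π ∈ A 0 ⊙ ⋯ ⊙ A (r - 1)`: the entries can be coloured so that the entries of colour `j`
form a pattern in `A j`. -/
def InMerge {r n : ℕ} (A : Fin r → Cl) (π : P n) : Prop :=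
  ∃ c : Fin n → Fin r, ∀ j, ∃ (m : ℕ) (σ : P m) (f : Fin m → Fin n),
    σ ∈ A j m ∧ Emb σ π f ∧ Set.range f = {i | c i = j}

def Splittable (C : Cl) : Prop :=
  ∃ (r : ℕ) (A : Fin r → Cl), (∀ j, IsClass (A j)) ∧ (∀ n, ∀ π ∈ C n, InMerge A π) ∧
    ∀ j, ¬ ∀ n, C n ⊆ A j n

inductive Pt
  | U (i : ℤ) : Pt
  | L (i : ℤ) (p : Pt) : Pt

open Pt

def enc (c : ℤ) : Pt → List ℤ
  | U i => [2 * (i + c) - 1]
  | L i p => 2 * i :: enc c p

theorem enc_inj (c : ℤ) : Function.Injective (enc c) := by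
  intro p
  induction p with
  | U i => rintro (j | ⟨j, q⟩) h <;> simp [enc] at h ⊢ <;> omega
  | L i p ih =>
    rintro (j | ⟨j, q⟩) h
    · simp [enc] at h; omega
    · simp only [enc, List.cons.injEq] at h
      rw [ih h.2, show i = j by omega]

theorem UU (c i j : ℤ) : enc c (U i) < enc c (U j) ↔ i < j := by
  simp [enc, List.cons_lt_cons_iff]

theorem UL (c i j : ℤ) (q : Pt) : enc c (U i) < enc c (L j q) ↔ i + c ≤ j := by
  simp only [enc, List.cons_lt_cons_iff]
  constructor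
  · rintro (h | ⟨h, -⟩) <;> omega
  · intro h; left; omega

theorem LU (c i j : ℤ) (q : Pt) : enc c (L j q) < enc c (U i) ↔ j < i + c := by
  simp only [enc, List.cons_lt_cons_iff]
  constructor
  · rintro (h | ⟨h, -⟩) <;> omega
  · intro h; left; omega

theorem LL (c i j : ℤ) (p q : Pt) :
    enc c (L i p) < enc c (L j q) ↔ i < j ∨ (i = j ∧ enc c p < enc c q) := by
  simp [enc, List.cons_lt_cons_iff]

def Pat (k : ℕ) {n : ℕ} (π : P n) (h : Fin n → Pt) : Prop :=
  StrictMono (enc 0 ∘ h) ∧ ∀ i j, π i < π j ↔ enc k (h i) < enc k (h j)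

def B (k : ℕ) : Cl := fun _ => {π | ∃ h, Pat k π h}

theorem Pat.inj {k n : ℕ} {π : P n} {h : Fin n → Pt} (H : Pat k π h) : Function.Injective h :=
  H.1.injective.of_comp

theorem cls (k : ℕ) : IsClass (B k) := by
  rintro n m β α f ⟨h, h1, h2⟩ ⟨f1, f2⟩
  exact ⟨h ∘ f, h1.comp f1, fun i j => (f2 i j).trans (h2 _ _)⟩

theorem sorted {n : ℕ} (c : ℤ) (h : Fin n → Pt) (hi : Function.Injective h) :
    StrictMono ((enc c ∘ h) ∘ Tuple.sort (enc c ∘ h)) :=
  (Tuple.monotone_sort _).strictMono_of_injective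
    (((enc_inj c).comp hi).comp (Equiv.injective _))

theorem std (k : ℕ) (S : Finset Pt) : ∃ (n : ℕ) (δ : P n) (h : Fin n → Pt), Pat k δ h ∧
    ∀ p, p ∈ S ↔ ∃ i, h i = p := by
  let e : Fin S.card → Pt := fun i => S.equivFin.symm i
  have he : Function.Injective e := Subtype.val_injective.comp S.equivFin.symm.injective
  let h := e ∘ Tuple.sort (enc 0 ∘ e)
  have hi : Function.Injective h := he.comp (Equiv.injective _)
  refine ⟨_, (Tuple.sort (enc k ∘ h)).symm, h, ⟨sorted 0 e he, fun i j => ?_⟩, fun p => ⟨?_, ?_⟩⟩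
  · rw [← (sorted k h hi).lt_iff_lt]
    simp
  · exact fun hp => ⟨(Tuple.sort (enc 0 ∘ e)).symm (S.equivFin ⟨p, hp⟩), by simp [h, e]⟩
  · rintro ⟨i, rfl⟩
    exact (S.equivFin.symm _).2

theorem emb_of {k n m : ℕ} {π : P n} {σ : P m} {h : Fin n → Pt} {g : Fin m → Pt}
    (H : Pat k π h) (G : Pat k σ g) (f : Fin m → Fin n) (e : ∀ i, h (f i) = g i) : Emb σ π f :=
  ⟨fun i j hij => H.1.lt_iff_lt.1 (by simpa [e] using G.1 hij),
    fun i j => by rw [G.2, H.2, e, e]⟩

def Mono (φ : Pt → Pt) : Prop := ∀ c p q, enc c (φ p) < enc c (φ q) ↔ enc c p < enc c q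

def sh : List ℤ → Pt → Pt
  | [], p => p
  | c :: _, U i => U (i + c)
  | c :: v, L i p => L (i + c) (sh v p)

theorem sh_mono : ∀ v, Mono (sh v)
  | [], _, _, _ => Iff.rfl
  | _ :: _, _, U _, U _ => by simp only [sh, UU]; omega
  | _ :: _, _, U _, L _ _ => by simp only [sh, UL]; omega
  | _ :: _, _, L _ _, U _ => by simp only [sh, LU]; omega
  | _ :: v, c, L _ p, L _ q => by simp [sh, LL, sh_mono v c p q]

def depth : Pt → ℕ
  | U _ => 0
  | L _ p => depth p + 1

theorem sh_ex : ∀ p q, depth p = depth q → ∃ v, sh v p = q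
  | U i, U j, _ => ⟨[j - i], by simp [sh]⟩
  | U _, L _ _, h => by simp [depth] at h
  | L _ _, U _, h => by simp [depth] at h
  | L i p, L j q, h => by
    obtain ⟨v, hv⟩ := sh_ex p q (by simpa [depth] using h)
    exact ⟨(j - i) :: v, by simp [sh, hv]⟩

theorem it_mono (m : ℕ) : Mono (L 0)^[m] := by
  induction m with
  | zero => exact fun _ _ _ => Iff.rfl
  | succ m ih => intro c p q; simp [Function.iterate_succ_apply', LL, ih c p q]

theorem it_depth (m : ℕ) (p : Pt) : depth ((L 0)^[m] p) = depth p + m := by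
  induction m with
  | zero => rfl
  | succ m ih => rw [Function.iterate_succ_apply', depth, ih, add_assoc]

theorem meet (p q : Pt) : ∃ φ ψ, Mono φ ∧ Mono ψ ∧ φ p = ψ q := by
  obtain ⟨v, hv⟩ := sh_ex ((L 0)^[depth q] p) ((L 0)^[depth p] q) (by
    rw [it_depth, it_depth, add_comm])
  exact ⟨sh v ∘ (L 0)^[depth q], _, fun c a b => (sh_mono v c _ _).trans (it_mono _ c a b),
    it_mono _, hv⟩

theorem Pat.map {k n : ℕ} {π : P n} {h : Fin n → Pt} (H : Pat k π h) {φ : Pt → Pt}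
    (hφ : Mono φ) : Pat k π (φ ∘ h) :=
  ⟨fun _ _ hij => (hφ 0 _ _).2 (H.1 hij), fun i j => (H.2 i j).trans (hφ k _ _).symm⟩

theorem amalg (k : ℕ) : OneAmalg (B k) := by
  classical
  rintro a ha α - n m β γ f g ⟨h1, H1⟩ ⟨h2, H2⟩ - -
  obtain ⟨φ, ψ, m1, m2, e⟩ : ∃ φ ψ, Mono φ ∧ Mono ψ ∧ ∀ i, φ (h1 (f i)) = ψ (h2 (g i)) := by
    interval_cases a
    · exact ⟨id, id, fun _ _ _ => Iff.rfl, fun _ _ _ => Iff.rfl, fun i => i.elim0⟩
    · obtain ⟨φ, ψ, m1, m2, e⟩ := meet (h1 (f 0)) (h2 (g 0))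
      exact ⟨φ, ψ, m1, m2, fun i => by rwa [Subsingleton.elim i 0]⟩
  obtain ⟨l, δ, h, H, hS⟩ := std k (Finset.univ.image (φ ∘ h1) ∪ Finset.univ.image (ψ ∘ h2))
  choose f' hf using fun i => (hS ((φ ∘ h1) i)).1 (by simp)
  choose g' hg using fun i => (hS ((ψ ∘ h2) i)).1 (by simp)
  refine ⟨l, δ, f', g', ⟨h, H⟩, emb_of H (H1.map m1) f' hf, emb_of H (H2.map m2) g' hg, ?_⟩
  funext i
  exact H.inj ((hf _).trans ((e i).trans (hg _).symm))

def last : Pt → ℤ
  | U i => i
  | L _ p => last p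

theorem close (k : ℤ) (hk : 0 ≤ k) : ∀ b a a' : Pt, enc 0 a < enc 0 a' → enc k a < enc k a' →
    enc 0 a' < enc 0 b → enc k b < enc k a → last a < last a' ∧ last a' < last a + k
  | U _, U _, U _ => by simp only [UU]; omega
  | U _, U _, L _ _ => by simp only [UU, UL, LU]; omega
  | U _, L _ _, U _ => by simp only [UU, UL, LU]; omega
  | U _, L _ _, L _ _ => by simp only [LL, UL, LU]; omega
  | L _ _, U _, U _ => by simp only [UU, UL, LU, last]; omega
  | L _ _, U _, L _ _ => by simp only [LL, UL, LU]; omega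
  | L _ _, L _ _, U _ => by simp only [LL, UL, LU]; omega
  | L j q, L i p, L i' p' => by
    simp only [LL, last]
    rintro (h1 | ⟨h1, g1⟩) (h2 | ⟨h2, g2⟩) (h3 | ⟨h3, g3⟩) (h4 | ⟨h4, g4⟩) <;>
      first | omega | exact close k hk q p p' g1 g2 g3 g4

theorem rot1 {r : ℕ} (i : Fin r) : (finRotate (r + 1) i.castSucc).1 = i + 1 := by
  rw [coe_finRotate_of_ne_last (Fin.castSucc_lt_last i).ne]
  rfl

theorem rot2 (r : ℕ) : (finRotate (r + 1) (Fin.last r)).1 = 0 := by simp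

theorem rot_mem (k : ℕ) : finRotate (k + 1) ∈ B k (k + 1) := by
  refine ⟨Fin.snoc (α := fun _ => Pt) (fun i => U i) (L (k - 1) (U 0)), fun i j => ?_,
    fun i j => ?_⟩
  · induction i using Fin.lastCases <;> induction j using Fin.lastCases <;>
      simp only [Function.comp, Fin.snoc_last, Fin.snoc_castSucc, UU, UL, LU, LL, Fin.lt_def,
        Fin.val_last, Fin.val_castSucc] <;> omega
  · induction i using Fin.lastCases <;> induction j using Fin.lastCases <;>
      simp only [Fin.snoc_last, Fin.snoc_castSucc, UU, UL, LU, LL, Fin.lt_def, rot1, rot2] <;>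
      omega

theorem rot_not {k r : ℕ} (h : k < r) : finRotate (r + 1) ∉ B k (r + 1) := by
  rintro ⟨g, g1, g2⟩
  have c : ∀ i j : Fin r, i < j → last (g i.castSucc) < last (g j.castSucc) ∧
      last (g j.castSucc) < last (g i.castSucc) + k := fun i j hij =>
    close k (by omega) (g (Fin.last r)) _ _ (g1 (by simpa using hij))
      ((g2 _ _).1 (by rw [Fin.lt_def, rot1, rot1]; omega)) (g1 (Fin.castSucc_lt_last _))
      ((g2 _ _).1 (by rw [Fin.lt_def, rot1, rot2]; omega))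
  have d : ∀ t (ht : t < r), last (g (Fin.castSucc ⟨0, by omega⟩)) + t ≤
      last (g (Fin.castSucc ⟨t, ht⟩)) := by
    intro t
    induction t with
    | zero => simp
    | succ t ih =>
      intro ht
      have := ih (by omega)
      have := (c ⟨t, by omega⟩ ⟨t + 1, ht⟩ (by simp [Fin.lt_def])).1
      push_cast
      omega
  rcases k.eq_zero_or_pos with rfl | hk
  · have a1 := g1 (Fin.castSucc_lt_last ⟨0, h⟩)
    have a2 := (g2 (Fin.last r) (Fin.castSucc ⟨0, h⟩)).1 (by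
      rw [Fin.lt_def, rot1, rot2]; omega)
    exact lt_asymm a1 a2
  · have := d k h
    have := (c ⟨0, by omega⟩ ⟨k, h⟩ hk).2
    omega

def Av : Cl := fun n => {π | ∀ i j l : Fin n, i < j → j < l → π i < π j → ¬ π l < π i}

theorem split (k : ℕ) : Splittable (B (k + 2)) := by
  classical
  refine ⟨k + 2, fun _ => Av, fun _ n m β α f hβ hf i j l a b c d =>
    hβ _ _ _ (hf.1 a) (hf.1 b) ((hf.2 _ _).1 c) ((hf.2 _ _).1 d), ?_, fun _ hs => ?_⟩
  · rintro n π ⟨h, H⟩
    have hk : (0 : ℤ) < (k + 2 : ℕ) := by omega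
    refine ⟨fun i => ⟨(last (h i) % (k + 2 : ℕ)).toNat, by
      have := Int.emod_lt_of_pos (last (h i)) hk; omega⟩, fun j => ?_⟩
    obtain ⟨m, σ, g, G, hS⟩ := std (k + 2)
      ((Finset.univ.filter fun i => (last (h i) % (k + 2 : ℕ)).toNat = j).image h)
    have hg := fun i => Finset.mem_image.1 ((hS (g i)).2 ⟨i, rfl⟩)
    choose f f1 f2 using hg
    refine ⟨m, σ, f, fun a b c x y z w => ?_, emb_of H G f f2, ?_⟩
    · have c1 := close _ hk.le (g c) (g a) (g b) (G.1 x) ((G.2 _ _).1 z) (G.1 y) ((G.2 _ _).1 w)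
      have c2 := (Finset.mem_filter.1 (f1 a)).2
      have c3 := (Finset.mem_filter.1 (f1 b)).2
      rw [f2] at c2 c3
      have c4 := Int.emod_nonneg (last (g a)) hk.ne'
      have c5 := Int.emod_nonneg (last (g b)) hk.ne'
      have c6 : last (g a) % (k + 2 : ℕ) = last (g b) % (k + 2 : ℕ) := by omega
      have := Int.le_of_dvd (by omega) (Int.ModEq.dvd c6)
      omega
    · ext i
      simp only [Set.mem_range, Set.mem_ofPred_eq, Fin.ext_iff]
      constructor
      · rintro ⟨a, e⟩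
        rw [← Fin.ext e]
        exact (Finset.mem_filter.1 (f1 a)).2
      · intro e
        obtain ⟨a, ha⟩ := (hS (h i)).1 (Finset.mem_image_of_mem _ (by simpa using e))
        exact ⟨a, congrArg _ (H.inj ((f2 a).trans ha))⟩
  · exact hs _ (rot_mem (k + 2)) (Fin.castSucc ⟨0, by omega⟩) (Fin.castSucc ⟨1, by omega⟩)
      (Fin.last _) (by simp [Fin.lt_def]) (Fin.castSucc_lt_last _)
      (by rw [Fin.lt_def, rot1, rot1]; simp) (by rw [Fin.lt_def, rot1, rot2]; simp)

theorem result : {C : Cl | IsClass C ∧ OneAmalg C ∧ Splittable C}.Infinite := by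
  refine Set.infinite_of_injective_forall_mem (f := fun k => B (k + 2)) (fun a b h => ?_)
    fun k => ⟨cls _, amalg _, split k⟩
  have h' : B (a + 2) = B (b + 2) := h
  by_contra hne
  rcases lt_or_gt_of_ne hne with hl | hl
  · have := rot_mem (b + 2)
    rw [← h'] at this
    exact rot_not (by omega) this
  · have := rot_mem (a + 2)
    rw [h'] at this
    exact rot_not (by omega) this

end Pool.Agent.Results.MP_80b08f_co.Yes
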